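import Pool.Agent.W221.NS.Stm2
import Pool.Agent.W496.MD.MOLL
import Pool.Agent.W583.MD.EN

/-!
Project ME, part MOLL2: the mollified velocity, local version.
-/

set_option autoImplicit false

open MeasureTheory Set Metric Filter Topology
open scoped ContDiff

namespace Pool.Agent.W583.ME

open H459R3.NS W221.NS
open Pool.Agent.W583.MD (Z_pd pd_mul' sm_pd int_cs)

/-- translation and dilation -/
theorem int_dil (f : V → ℝ) {r : ℝ} (hr : 0 < r) (x : V) :
    ∫ y, f (x + r • y) = (r ^ 3)⁻¹ * ∫ y, f y := by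
  have h := Measure.integral_comp_smul (μ := (volume : Measure V)) (fun z => f (x + z)) r
  rw [h, integral_add_left_eq_self f x]
  simp only [Module.finrank_fintype_fun_eq_card, Fintype.card_fin, smul_eq_mul]
  rw [abs_of_pos (by positivity)]

theorem intg_dil {f : V → ℝ} (hf : Integrable f) {r : ℝ} (hr : 0 < r) (x : V) :
    Integrable fun y => f (x + r • y) :=
  (integrable_comp_smul_iff (μ := (volume : Measure V)) (fun z => f (x + z)) hr.ne').2
    (hf.comp_add_left x)

theorem moll_bd {ψ : V → ℝ} (hψ : Continuous ψ) (hs : HasCompactSupport ψ) {f : V → ℝ}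
    (hf : Continuous f) (hi : Integrable fun x => f x ^ 2) {B : ℝ} (hB : 0 ≤ B)
    (h : ∫ x, f x ^ 2 ≤ B ^ 2) {r : ℝ} (hr : 0 < r) (x : V) :
    |∫ y, ψ y * f (x + r • y)| ≤ ((∫ y, ψ y ^ 2) + 1) / 2 * B / √(r ^ 3) := by
  set Ψ := ∫ y, ψ y ^ 2 with hΨ
  have hΨ0 : 0 ≤ Ψ := integral_nonneg fun y => sq_nonneg _
  set G := B / √(r ^ 3) with hG
  have hG0 : 0 ≤ G := by positivity
  have e0 : ((∫ y, ψ y ^ 2) + 1) / 2 * B / √(r ^ 3) = (Ψ + 1) / 2 * G := by
    rw [hG, hΨ, mul_div_assoc]
  have hg : Continuous fun y => f (x + r • y) := hf.comp (by fun_prop)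
  have hgi : Integrable fun y => f (x + r • y) ^ 2 := intg_dil hi hr x
  have hψi : Integrable fun y => ψ y ^ 2 := by
    have : HasCompactSupport fun y => ψ y ^ 2 := hs.comp_left (g := fun z : ℝ => z ^ 2) (by simp)
    exact int_cs (hψ.pow 2) this
  have hpi : Integrable fun y => ψ y * f (x + r • y) := int_cs (hψ.mul hg) hs.mul_right
  have hg2 : ∫ y, f (x + r • y) ^ 2 ≤ G ^ 2 := by
    rw [int_dil (fun y => f y ^ 2) hr x, hG, div_pow, Real.sq_sqrt (by positivity), div_eq_inv_mul]
    exact mul_le_mul_of_nonneg_left h (by positivity)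
  have key : ∀ η : ℝ, 0 < η → |∫ y, ψ y * f (x + r • y)| ≤ (Ψ + 1) / 2 * (G + η) := by
    intro η hη
    set δ := G + η with hδ
    have hδ0 : 0 < δ := by positivity
    have h1 : ∀ y, |ψ y * f (x + r • y)| ≤ δ / 2 * ψ y ^ 2 + 1 / (2 * δ) * f (x + r • y) ^ 2 := by
      intro y
      rw [abs_mul]
      have h2 : 0 ≤ (δ * |ψ y| - |f (x + r • y)|) ^ 2 := sq_nonneg _
      have h3 : δ / 2 * ψ y ^ 2 + 1 / (2 * δ) * f (x + r • y) ^ 2 - |ψ y| * |f (x + r • y)| =
          (δ * |ψ y| - |f (x + r • y)|) ^ 2 / (2 * δ) := by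
        rw [← sq_abs (ψ y), ← sq_abs (f (x + r • y))]
        field_simp
        ring
      have h4 : 0 ≤ (δ * |ψ y| - |f (x + r • y)|) ^ 2 / (2 * δ) := by positivity
      linarith
    calc |∫ y, ψ y * f (x + r • y)| ≤ ∫ y, |ψ y * f (x + r • y)| := abs_integral_le_integral_abs
      _ ≤ ∫ y, (δ / 2 * ψ y ^ 2 + 1 / (2 * δ) * f (x + r • y) ^ 2) :=
          integral_mono hpi.abs ((hψi.const_mul _).add (hgi.const_mul _)) h1
      _ = δ / 2 * Ψ + 1 / (2 * δ) * ∫ y, f (x + r • y) ^ 2 := by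
          rw [integral_add (hψi.const_mul _) (hgi.const_mul _), integral_const_mul,
            integral_const_mul]
      _ ≤ δ / 2 * Ψ + 1 / (2 * δ) * δ ^ 2 := by
          have h2 : G ^ 2 ≤ δ ^ 2 := pow_le_pow_left₀ hG0 (by linarith) 2
          have h3 := mul_le_mul_of_nonneg_left (hg2.trans h2) (by positivity : 0 ≤ 1 / (2 * δ))
          linarith
      _ = (Ψ + 1) / 2 * δ := by
          field_simp
  rw [e0]
  refine le_of_forall_pos_le_add fun ε hε => ?_
  have hK : 0 < (Ψ + 1) / 2 := by positivity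
  have h1 := key (ε / ((Ψ + 1) / 2)) (by positivity)
  have h2 : (Ψ + 1) / 2 * (G + ε / ((Ψ + 1) / 2)) = (Ψ + 1) / 2 * G + ε := by
    field_simp
  rw [h2] at h1
  exact h1

theorem th_cs : HasCompactSupport th :=
  HasCompactSupport.intro (isCompact_closedBall (0 : V) 1) fun _ hy => W496.MD.th_zero hy

theorem smooth2 {T κ E : ℝ} {O : Set V} {u : ℝ → V → V} {p : ℝ → V → ℝ} (h : LSol T κ E O u p)
    (r : ℝ) (i : Fin 3) :
    ContDiffOn ℝ ∞ (fun z : ℝ × V => ∫ y, th y * u z.1 (z.2 + r • y) i) (Ioo 0 T ×ˢ univ) := by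
  let g : (ℝ × V) → V → ℝ := fun z y => th y * u z.1 (z.2 + r • y) i
  have hs : IsOpen (Ioo 0 T ×ˢ (univ : Set V)) := isOpen_Ioo.prod isOpen_univ
  have hg : ContDiffOn ℝ ∞ (↿g) ((Ioo 0 T ×ˢ (univ : Set V)) ×ˢ (univ : Set V)) := by
    have h1 : ContDiffOn ℝ ∞ (fun q : (ℝ × V) × V => th q.2)
        ((Ioo 0 T ×ˢ (univ : Set V)) ×ˢ (univ : Set V)) :=
      (W496.MD.th_smooth.comp contDiff_snd).contDiffOn
    have h2 : ContDiff ℝ ∞ (fun q : (ℝ × V) × V => ((q.1.1, q.1.2 + r • q.2) : ℝ × V)) := by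
      fun_prop
    have h3 := h.smooth_u.comp h2.contDiffOn (s := (Ioo 0 T ×ˢ (univ : Set V)) ×ˢ (univ : Set V))
      (fun q hq => ⟨hq.1.1, mem_univ _⟩)
    have h4 : ContDiffOn ℝ ∞ (fun q : (ℝ × V) × V => u q.1.1 (q.1.2 + r • q.2) i)
        ((Ioo 0 T ×ˢ (univ : Set V)) ×ˢ (univ : Set V)) := contDiffOn_pi.1 h3 i
    exact h1.mul h4
  have key := contDiffOn_convolution_right_with_param_comp (𝕜 := ℝ) (n := ⊤)
    (ContinuousLinearMap.mul ℝ ℝ) (s := Ioo 0 T ×ˢ (univ : Set V))
    (v := fun _ : ℝ × V => (0 : V)) contDiffOn_const (f := fun _ : V => (1 : ℝ)) (g := g)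
    (k := closedBall (0 : V) 1) hs (isCompact_closedBall 0 1)
    (fun z y _ hy => by simp [g, W496.MD.th_zero hy]) (μ := (volume : Measure V))
    (locallyIntegrable_const 1) hg
  refine key.congr ?_
  intro z _
  simp only [convolution_def, ContinuousLinearMap.mul_apply', one_mul, zero_sub]
  exact (integral_neg_eq_self (fun y => g z y) volume).symm

/-- the derivative of a dilation -/
theorem pd_dil {w : V → ℝ} (hw : ContDiff ℝ ∞ w) (r : ℝ) (x y : V) (j : Fin 3) :
    pd j (fun y => w (x + r • y)) y = r * pd j w (x + r • y) := by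
  unfold pd
  have h1 : HasFDerivAt w (fderiv ℝ w (x + r • y)) (x + r • y) :=
    (hw.differentiable (by simp) _).hasFDerivAt
  have h2 : HasFDerivAt (fun y : V => x + r • y) (r • ContinuousLinearMap.id ℝ V) y :=
    ((hasFDerivAt_id y).const_smul r).const_add x
  have h3 : HasFDerivAt (fun y => w (x + r • y)) _ y := h1.comp y h2
  rw [h3.fderiv]
  simp

/-- MOLL2 -/
theorem t_MOLL2 : S_MOLL2 := by
  refine ⟨((∫ y, th y ^ 2) + 1) / 2, ?_, ?_⟩
  · have : 0 ≤ ∫ y, th y ^ 2 := integral_nonneg fun y => sq_nonneg _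
    positivity
  intro T κ E O u p hκ hE h r hr
  have hsl : ∀ t ∈ Ioo 0 T, ContDiff ℝ ∞ (u t) := by
    intro t ht
    rw [← contDiffOn_univ]
    exact h.smooth_u.comp (contDiff_const.prodMk contDiff_id).contDiffOn
      (fun x _ => ⟨ht, mem_univ _⟩)
  have hw : ∀ t ∈ Ioo 0 T, ∀ i, ContDiff ℝ ∞ (fun y => u t y i) := fun t ht i =>
    contDiff_pi.1 (hsl t ht) i
  have hint : ∀ t ∈ Ioo 0 T, ∀ i, Integrable (fun y => u t y i ^ 2) := by
    intro t ht i
    refine (h.en_int t ht).mono' ((hw t ht i).continuous.pow 2).aestronglyMeasurable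
      (Filter.Eventually.of_forall fun y => ?_)
    rw [Real.norm_of_nonneg (sq_nonneg _)]
    unfold nsq
    exact Finset.single_le_sum (f := fun i => u t y i ^ 2) (fun _ _ => sq_nonneg _)
      (Finset.mem_univ i)
  have hen : ∀ t ∈ Ioo 0 T, ∀ i, ∫ y, u t y i ^ 2 ≤ E ^ 2 := by
    intro t ht i
    refine (integral_mono (hint t ht i) (h.en_int t ht) fun y => ?_).trans (h.en t ht)
    unfold nsq
    exact Finset.single_le_sum (f := fun i => u t y i ^ 2) (fun _ _ => sq_nonneg _)
      (Finset.mem_univ i)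
  have hthc : Continuous th := W496.MD.th_smooth.continuous
  have hpd : ∀ t ∈ Ioo 0 T, ∀ x i j, pd j (fun y => mol r u t y i) x =
      ∫ y, th y * pd j (fun z => u t z i) (x + r • y) := fun t ht x i j =>
    W496.MD.pd_moll (hw t ht i) r x j
  -- the bound for the derivatives
  let K : Fin 3 → ℝ := fun j => r⁻¹ * (((∫ y, pd j th y ^ 2) + 1) / 2 * E / √(r ^ 3))
  have hK : ∀ j, 0 ≤ K j := by
    intro j
    have : 0 ≤ ∫ y, pd j th y ^ 2 := integral_nonneg fun y => sq_nonneg _
    positivity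
  refine ⟨∑ j, K j, ⟨?_, ?_, ?_, ?_⟩⟩
  · exact contDiffOn_pi.2 fun i => smooth2 h r i
  · intro t ht x
    have : 0 ≤ ∫ y, th y ^ 2 := integral_nonneg fun y => sq_nonneg _
    rw [pi_norm_le_iff_of_nonneg (by positivity)]
    intro i
    rw [Real.norm_eq_abs]
    exact moll_bd hthc th_cs (hw t ht i).continuous (hint t ht i) hE (hen t ht i) hr x
  · intro t ht x i j
    rw [hpd t ht x i j]
    have hd : ContDiff ℝ ∞ (fun y => u t (x + r • y) i) := (hw t ht i).comp (by fun_prop)
    have hz := (Z_pd (f := fun y => th y * u t (x + r • y) i) (W496.MD.th_smooth.mul hd)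
      th_cs.mul_right j).2
    have e1 : ∀ y, pd j (fun y => th y * u t (x + r • y) i) y =
        r * (th y * pd j (fun z => u t z i) (x + r • y)) + pd j th y * u t (x + r • y) i := by
      intro y
      rw [pd_mul' W496.MD.th_smooth hd, pd_dil (hw t ht i)]
      ring
    have c1 : Continuous fun y => pd j (fun z => u t z i) (x + r • y) :=
      (sm_pd (hw t ht i) j).continuous.comp (by fun_prop)
    have i1 : Integrable fun y => r * (th y * pd j (fun z => u t z i) (x + r • y)) :=
      (int_cs (hthc.mul c1) th_cs.mul_right).const_mul r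
    have i2 : Integrable fun y => pd j th y * u t (x + r • y) i :=
      int_cs ((sm_pd W496.MD.th_smooth j).continuous.mul hd.continuous)
        (Pool.Agent.W583.MD.cs_pd th_cs j).mul_right
    rw [funext e1, integral_add i1 i2, integral_const_mul] at hz
    have e2 : ∫ y, th y * pd j (fun z => u t z i) (x + r • y) =
        -(r⁻¹ * ∫ y, pd j th y * u t (x + r • y) i) := by
      have hr' := hr.ne'
      field_simp
      linarith
    rw [e2, abs_neg, abs_mul, abs_of_pos (inv_pos.2 hr)]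
    have h3 := moll_bd (sm_pd W496.MD.th_smooth j).continuous (Pool.Agent.W583.MD.cs_pd th_cs j)
      (hw t ht i).continuous (hint t ht i) hE (hen t ht i) hr x
    refine (mul_le_mul_of_nonneg_left h3 (inv_pos.2 hr).le).trans ?_
    exact Finset.single_le_sum (f := K) (fun j _ => hK j) (Finset.mem_univ j)
  · intro t ht x
    have hdc : Continuous (dv (u t)) := by
      unfold dv
      exact continuous_finsetSum _ fun i _ => (sm_pd (hw t ht i) i).continuous
    have e1 : dv (mol r u t) x = ∫ y, th y * dv (u t) (x + r • y) := by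
      unfold dv
      rw [Finset.sum_congr rfl fun i _ => hpd t ht x i i, ← integral_finsetSum]
      · refine integral_congr_ae (Filter.Eventually.of_forall fun y => ?_)
        simp only [Finset.mul_sum]
      · intro i _
        have c1 : Continuous fun y => pd i (fun z => u t z i) (x + r • y) :=
          (sm_pd (hw t ht i) i).continuous.comp (by fun_prop)
        exact int_cs (hthc.mul c1) th_cs.mul_right
    rw [e1]
    exact moll_bd hthc th_cs hdc (h.dv_int t ht) hκ (h.dvb t ht) hr x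

end Pool.Agent.W583.ME
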